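import Pool.Agent.MP_39ed1d_co.H46.FewA

/-! `Arc` implies `Few`. -/

namespace Pool.Agent.MP_39ed1d_co.H46

open Pool.Agent.MP_39ed1d_co.H76 Filter Complex Metric Set Topology
open scoped ComplexConjugate

theorem aa_at_zero (n : ℕ) : aa 0 n = 1 := by
  induction n using Nat.strong_induction_on with
  | _ n ih =>
    rcases n with _ | n
    · exact aa_zero 0
    · have h : ((n : ℂ) + 1) ≠ 0 := by exact_mod_cast n.succ_ne_zero
      apply mul_left_cancel₀ h
      rw [aa_succ, Finset.sum_congr rfl (g := fun _ => (1 : ℂ)) fun k hk => ?_]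
      · simp
      · rw [ih k (Finset.mem_range.1 hk), ih (n - k) (by omega), Finset.sum_range_succ']
        simp

theorem one_sub_cc_mem {θ : ℝ} (hθ : θ ∈ Ioo 0 (2 * Real.pi)) : 1 - cc θ ∈ slitPlane := by
  left
  simp only [sub_re, one_re, cc_re, sub_pos]
  refine lt_of_le_of_ne (Real.cos_le_one θ) fun h => ?_
  exact hθ.1.ne' ((Real.cos_eq_one_iff_of_lt_of_lt (by linarith [hθ.1, Real.pi_pos]) hθ.2).1 h)

/-- a continuous real function is bounded below on a compact interval -/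
theorem exists_lower {f : ℝ → ℝ} {a b : ℝ} (hf : ContinuousOn f (Icc a b)) :
    ∃ c : ℝ, 0 ≤ c ∧ ∀ θ ∈ Icc a b, -c ≤ f θ := by
  obtain ⟨c, hc⟩ := isCompact_Icc.exists_bound_of_continuousOn hf
  exact ⟨max c 0, le_max_right _ _, fun θ hθ => by
    have := (abs_le.1 (hc θ hθ)).1
    linarith [le_max_left c 0]⟩

theorem prod_scale (s : Multiset ℂ) {ρ : ℂ} (hρ : ρ ≠ 0) (y : ℂ) :
    (s.map fun a => ρ * y - a).prod =
      ρ ^ s.card * ((s.map fun a => a / ρ).map fun b => y - b).prod := by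
  induction s using Multiset.induction_on with
  | empty => simp
  | cons a s ih =>
    simp only [Multiset.map_cons, Multiset.prod_cons, Multiset.card_cons, ih, pow_succ]
    field_simp

/-- one value of `n` -/
theorem count_le {f : ℂ → ℂ} (hf : Differentiable ℂ f) (hf0 : f 0 ≠ 0) {M p δ m C C1 r : ℝ}
    (hp : 1 < p) (hδ : 0 < δ) (hδ' : δ ≤ Real.pi) (hm : 0 ≤ m) (hr : r < 1)
    (hM : ∀ y, ‖y‖ ≤ 1 → ‖f y‖ ≤ Real.exp M)
    {Λ : ℝ → ℂ} (hΛ : ContinuousOn Λ (Icc δ (2 * Real.pi - δ)))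
    (hΛe : ∀ θ ∈ Icc δ (2 * Real.pi - δ), ‖f (cc θ) / exp (Λ θ) - 1‖ < 1 / 2)
    (hre : ∀ θ ∈ Icc δ (2 * Real.pi - δ), M - C1 ≤ (Λ θ).re)
    (him : ∀ θ ∈ Icc δ Real.pi, (Λ (2 * Real.pi - θ)).im - (Λ θ).im ≤ 2 * m * θ + C)
    (s : Multiset ℂ) (g : ℂ → ℂ) (hs : ∀ a ∈ s, ‖a‖ ≤ r) (hg : Differentiable ℂ g)
    (hfg : ∀ y, f y = (s.map fun a => y - a).prod * g y) :
    ∃ S : ℝ, s.card * ((1 - r) / 4) ≤ S ∧
      (2 * Real.pi * S - (C + 2 * Real.pi)) * (Real.log (p + 1) - Real.log ‖p - cc δ‖) ≤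
        (C1 + 1 + 4 * (2 * m + 2 * S)) * (Real.pi - δ) := by
  obtain ⟨s0, g0, -, -, h03, h04⟩ := factor f hf hf0 1 one_pos
  have ev1 : ∀ᶠ ρ : ℝ in 𝓝[<] 1, ∀ a ∈ s0.toFinset, ρ ≠ ‖a‖ := by
    rw [eventually_all_finset]
    intro a _
    exact (nhdsLT_le_nhdsNE 1).trans (nhdsNE_le_cofinite 1) (eventually_cofinite_ne _)
  have ev2 : ∀ᶠ ρ : ℝ in 𝓝 1, r / ρ < (1 + r) / 2 := by
    have : ContinuousAt (fun ρ : ℝ => r / ρ) 1 := continuousAt_const.div continuousAt_id one_ne_zero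
    exact this.eventually_lt continuousAt_const (by simp only [div_one]; linarith)
  have ev3 : ∀ᶠ ρ : ℝ in 𝓝 1, ∀ θ : Icc δ (2 * Real.pi - δ),
      ‖f (ρ * cc θ) / exp (Λ θ) - 1‖ < 1 / 2 := by
    have := (isCompact_univ (X := Icc δ (2 * Real.pi - δ))).eventually_forall_of_forall_eventually
      (x₀ := (1 : ℝ)) (P := fun ρ θ => ‖f (ρ * cc θ) / exp (Λ θ) - 1‖ < 1 / 2) fun θ _ => by
      have c1 : Continuous fun θ : Icc δ (2 * Real.pi - δ) => Λ θ := hΛ.domRestrict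
      have c2 := hf.continuous
      have c3 := continuous_cc
      have c4 : Continuous fun z : ℝ × Icc δ (2 * Real.pi - δ) =>
          ‖f (z.1 * cc z.2) / exp (Λ z.2) - 1‖ :=
        (((c2.comp (by fun_prop)).div (c1.comp continuous_snd).cexp
          fun _ => exp_ne_zero _).sub continuous_const).norm
      exact c4.continuousAt.eventually_lt continuousAt_const (by simpa using hΛe θ θ.2)
    exact this.mono fun ρ h θ => h θ trivial
  have ev4 : ∀ᶠ ρ : ℝ in 𝓝 1, 0 < ρ := lt_mem_nhds one_pos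
  obtain ⟨ρ, ⟨⟨e1, e5⟩, e2, e3, e4⟩⟩ := ((ev1.and self_mem_nhdsWithin).and
    ((ev2.and (ev3.and ev4)).filter_mono nhdsWithin_le_nhds)).exists
  have e5 : ρ < 1 := e5
  have hρ : (ρ : ℂ) ≠ 0 := by exact_mod_cast e4.ne'
  have hnρ : ∀ y : ℂ, ‖y‖ = 1 → ‖(ρ : ℂ) * y‖ = ρ := fun y hy => by
    rw [norm_mul, hy, norm_real, Real.norm_of_nonneg e4.le, mul_one]
  have hne : ∀ y : ℂ, ‖y‖ = 1 → f (ρ * y) ≠ 0 := fun y hy => by
    rw [h03]
    refine mul_ne_zero (prod_ne_zero_of fun a ha h => ?_) (h04 _ (by rw [hnρ y hy]; exact e5.le))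
    exact e1 a (Multiset.mem_toFinset.2 ha) (by rw [← h, hnρ y hy])
  obtain ⟨s2, g2, h21, h22, h23, h24⟩ := factor (fun y => (ρ : ℂ) ^ s.card * g (ρ * y))
    (by fun_prop) (by
      simp only [mul_zero]
      refine mul_ne_zero (pow_ne_zero _ hρ) fun h => hf0 ?_
      rw [hfg, h, mul_zero]) 1 one_pos
  set t := (s.map fun a : ℂ => a / ρ) + s2 with ht
  have hft : ∀ y, (t.map fun a => y - a).prod * g2 y = f (ρ * y) := fun y => by
    rw [ht, Multiset.map_add, Multiset.prod_add, mul_assoc, ← h23, hfg, prod_scale s hρ]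
    ring
  have hs1 : ∀ a ∈ s, ‖a / ρ‖ ≤ (1 + r) / 2 := fun a ha => by
    rw [norm_div, norm_real, Real.norm_of_nonneg e4.le]
    exact (div_le_div_of_nonneg_right (hs a ha) e4.le).trans e2.le
  have hs2 : ∀ a ∈ s2, ‖a‖ < 1 := fun a ha => lt_of_le_of_ne (h21 a ha) fun h => by
    refine hne a h ?_
    rw [← hft, Multiset.prod_eq_zero (Multiset.mem_map.2 ⟨a, Multiset.mem_add.2 (Or.inr ha),
      sub_self a⟩), zero_mul]
  have ht1 : ∀ a ∈ t, ‖a‖ < 1 := fun a ha => by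
    rcases Multiset.mem_add.1 ha with h | h
    · obtain ⟨b, hb, rfl⟩ := Multiset.mem_map.1 h
      linarith [hs1 b hb]
    · exact hs2 a h
  set j : ℝ → ℂ := fun θ => f (ρ * cc θ) / exp (Λ θ) with hj
  have hj1 : ∀ θ ∈ Icc δ (2 * Real.pi - δ), ‖j θ - 1‖ < 1 / 2 := fun θ hθ => e3 ⟨θ, hθ⟩
  have hj2 : ∀ θ ∈ Icc δ (2 * Real.pi - δ), j θ ∈ slitPlane := fun θ hθ => by
    have := mem_slitPlane_of_norm_lt_one (z := j θ - 1) (by linarith [hj1 θ hθ])
    simpa using this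
  refine ⟨(t.map fun a => (1 - ‖a‖) / 2).sum, ?_, ?_⟩
  · rw [ht, Multiset.map_add, Multiset.sum_add]
    have b1 : 0 ≤ (s2.map fun a => (1 - ‖a‖) / 2).sum := Multiset.sum_nonneg fun x hx => by
      obtain ⟨a, ha, rfl⟩ := Multiset.mem_map.1 hx
      linarith [hs2 a ha]
    have b2 := Multiset.card_nsmul_le_sum
      (s := (s.map fun a : ℂ => a / ρ).map fun a => (1 - ‖a‖) / 2) (a := (1 - r) / 4) fun x hx => by
      obtain ⟨a, ha, rfl⟩ := Multiset.mem_map.1 hx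
      obtain ⟨b, hb, rfl⟩ := Multiset.mem_map.1 ha
      linarith [hs1 b hb]
    simp only [Multiset.card_map, nsmul_eq_mul] at b2
    linarith
  · refine core h22 h24 t ht1 (M := M) (Λ := fun θ => Λ θ + log (j θ)) hp hδ hδ' hm
      (fun y hy => ?_) (hΛ.add (ContinuousOn.clog ?_ hj2)) (fun θ hθ => ?_) (fun θ hθ => ?_)
      fun θ hθ => ?_
    · rw [hft]; exact hM _ (by rw [hnρ y hy]; exact e5.le)
    · have c3 := continuous_cc
      exact (hf.continuous.comp (by fun_prop)).continuousOn.div hΛ.cexp fun _ _ => exp_ne_zero _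
    · rw [hft, exp_add, exp_log (slitPlane_ne_zero (hj2 θ hθ)), hj,
        mul_div_cancel₀ _ (exp_ne_zero _)]
    · have b1 : 1 / 2 ≤ ‖j θ‖ := by
        have := norm_sub_norm_le 1 (j θ)
        rw [norm_sub_rev, norm_one] at this
        linarith [hj1 θ hθ]
      have b2 := Real.one_sub_inv_le_log_of_pos (x := ‖j θ‖) (by linarith)
      have b3 : ‖j θ‖⁻¹ ≤ 2 := by
        rw [inv_le_comm₀ (by linarith) two_pos]; linarith
      rw [add_re, log_re]
      linarith [hre θ hθ]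
    · simp only [add_im, log_im]
      linarith [him θ hθ, arg_le_pi (j (2 * Real.pi - θ)), neg_pi_lt_arg (j θ)]

theorem few_of_arc (h : Arc) : Few := by
  obtain ⟨μ, hμc, hμs, hμb, hμt⟩ := h
  have hpi := Real.pi_pos
  have hμ0 : ∀ θ ∈ Ioo 0 (2 * Real.pi), μ θ ≠ 0 := fun θ hθ h0 => by
    have := slitPlane_ne_zero (hμs θ hθ)
    simp [h0] at this
  obtain ⟨A, hA0, hA⟩ : ∃ A : ℝ, 0 ≤ A ∧ ∀ θ ∈ Ioo 0 (2 * Real.pi), -A ≤ Real.log ‖μ θ‖ := by
    obtain ⟨d, hd, hd'⟩ := hμb 1 one_pos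
    have hsub : Icc d (2 * Real.pi - d) ⊆ Ioo 0 (2 * Real.pi) :=
      Icc_subset_Ioo hd (by linarith)
    obtain ⟨A, hA0, hA⟩ := exists_lower (f := fun θ => Real.log ‖μ θ‖)
      ((hμc.mono hsub).norm.log fun θ hθ => norm_ne_zero_iff.2 (hμ0 θ (hsub hθ)))
    refine ⟨A, hA0, fun θ hθ => ?_⟩
    by_cases hc : θ < d ∨ 2 * Real.pi - d < θ
    · have := hd' θ hθ hc
      rw [sub_self, Real.exp_zero] at this
      linarith [Real.log_nonneg this]
    · push Not at hc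
      exact hA θ hc
  intro r η hr hη
  set κ := (1 - r) / 4 with hκ
  have hκ0 : 0 < κ := by rw [hκ]; linarith
  set L0 := 5 + (9 + A) / (κ * η) with hL0
  have hL5 : 5 ≤ L0 := by
    have : 0 ≤ (9 + A) / (κ * η) := by positivity
    linarith
  set δ := Real.exp (-L0) / 2 with hδ
  have hδ0 : 0 < δ := by positivity
  have hδ1 : δ ≤ 1 / 2 := by
    have : Real.exp (-L0) ≤ 1 := Real.exp_le_one_iff.2 (by linarith)
    linarith
  have hδπ : δ ≤ Real.pi := by linarith [Real.two_le_pi]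
  have hsub : Icc δ (2 * Real.pi - δ) ⊆ Ioo 0 (2 * Real.pi) := Icc_subset_Ioo hδ0 (by linarith)
  set L := Real.log (1 + δ + 1) - Real.log ‖((1 + δ : ℝ) : ℂ) - cc δ‖ with hL
  have hLL : L0 ≤ L := by
    have b1 : 0 ≤ Real.log (1 + δ + 1) := Real.log_nonneg (by linarith)
    have b2 : ‖((1 + δ : ℝ) : ℂ) - cc δ‖ ≤ Real.exp (-L0) := by
      have e : ((1 + δ : ℝ) : ℂ) - cc δ = δ - (exp (I * δ) - 1) := by
        rw [mul_comm]; simp only [cc]; push_cast; ring
      have := norm_sub_le (δ : ℂ) (exp (I * δ) - 1)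
      have b3 := Real.norm_exp_I_mul_ofReal_sub_one_le (x := δ)
      rw [norm_real] at this
      rw [Real.norm_of_nonneg hδ0.le] at this b3
      rw [e]; linarith
    have b4 : 0 < ‖((1 + δ : ℝ) : ℂ) - cc δ‖ := norm_pos_iff.2 fun h0 => by
      have := congrArg re h0
      simp only [sub_re, ofReal_re, cc_re, zero_re] at this
      linarith [Real.cos_le_one δ]
    have b5 := Real.log_le_log b4 b2
    rw [Real.log_exp] at b5
    linarith
  obtain ⟨C2, hC20, hC2⟩ := exists_lower (f := fun θ => Real.log ‖1 - cc θ‖)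
    (a := δ) (b := 2 * Real.pi - δ) ((continuous_const.sub continuous_cc).norm.continuousOn.log
      fun θ hθ => norm_ne_zero_iff.2 (slitPlane_ne_zero (one_sub_cc_mem (hsub hθ))))
  have hU := (tendstoLocallyUniformlyOn_iff_forall_isCompact isOpen_Ioo).1 hμt _ hsub
    isCompact_Icc
  have ev1 := Metric.tendstoUniformlyOn_iff.1 hU (1 / 2) (by norm_num)
  have ev2 : ∀ᶠ n : ℕ in atTop, (4 * L + C2 + 1 + (9 + A)) / (κ * η) ≤ (n : ℝ) :=
    tendsto_natCast_atTop_atTop.eventually_ge_atTop _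
  filter_upwards [ev1, ev2] with n h1 h2 s g hs hg hfg
  set Λ : ℝ → ℂ := fun θ => log (1 - cc θ) +
    ((n + 1 : ℕ) : ℂ) * (log (-(μ θ * cc θ)) - (θ - Real.pi) * I) with hΛ
  have hΛe : ∀ θ ∈ Ioo 0 (2 * Real.pi), exp (Λ θ) = (1 - cc θ) * μ θ ^ (n + 1) := fun θ hθ => by
    simp only [hΛ]
    rw [exp_add, exp_log (slitPlane_ne_zero (one_sub_cc_mem hθ)), exp_nat_mul, exp_sub,
      exp_log (show -(μ θ * cc θ) ≠ 0 from slitPlane_ne_zero (hμs θ hθ)),
      sub_mul (θ : ℂ), exp_sub, exp_pi_mul_I]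
    have := cc_ne θ
    congr 2
    change _ / (cc θ / _) = _
    field_simp
  obtain ⟨S, hS1, hS2⟩ := count_le (f := fun y => aa y n) (differentiable_aa n)
    (by simp [aa_at_zero]) (M := n + 1) (p := 1 + δ) (δ := δ) (m := n + 1) (C := 2 * Real.pi)
    (C1 := (n + 1) * (1 + A) + C2) (r := r) (Λ := Λ) (by linarith) hδ0 hδπ (by positivity) hr
    (fun y hy => norm_aa_le hy n)
    (by
      have c3 := continuous_cc
      refine (ContinuousOn.clog (by fun_prop) fun θ hθ => one_sub_cc_mem (hsub hθ)).add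
        (continuousOn_const.mul (ContinuousOn.sub (ContinuousOn.clog ?_
          fun θ hθ => hμs θ (hsub hθ)) (by fun_prop)))
      exact ((hμc.mono hsub).mul c3.continuousOn).neg)
    (fun θ hθ => by
      rw [hΛe θ (hsub hθ), ← dist_eq_norm, dist_comm]; exact h1 θ hθ)
    (fun θ hθ => by
      have e : (Λ θ).re = Real.log ‖1 - cc θ‖ + (n + 1) * Real.log ‖μ θ‖ := by
        simp [hΛ, log_re, norm_cc]
      rw [e]
      nlinarith [hC2 θ hθ, mul_le_mul_of_nonneg_left (hA θ (hsub hθ))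
        (by positivity : (0 : ℝ) ≤ n + 1)])
    (fun θ hθ => by
      have e : ∀ x : ℝ, (Λ x).im = arg (1 - cc x) +
          (n + 1) * (arg (-(μ x * cc x)) - (x - Real.pi)) := fun x => by
        simp [hΛ, log_im]
      rw [e, e]
      have b1 := arg_le_pi (-(μ (2 * Real.pi - θ) * cc (2 * Real.pi - θ)))
      have b2 := neg_pi_lt_arg (-(μ θ * cc θ))
      have b3 : (arg (-(μ (2 * Real.pi - θ) * cc (2 * Real.pi - θ))) -
          (2 * Real.pi - θ - Real.pi)) - (arg (-(μ θ * cc θ)) - (θ - Real.pi)) ≤ 2 * θ := by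
        linarith
      nlinarith [arg_le_pi (1 - cc (2 * Real.pi - θ)), neg_pi_lt_arg (1 - cc θ),
        mul_le_mul_of_nonneg_left b3 (by positivity : (0 : ℝ) ≤ n + 1)])
    s g hs hg hfg
  rw [← hL] at hS2
  have hS0 : 0 ≤ S := le_trans (by positivity) hS1
  have hn : (0 : ℝ) ≤ n := n.cast_nonneg
  have b1 : (2 * S - 4) * L ≤ (n + 1) * (9 + A) + C2 + 1 + 8 * S := by
    refine le_of_mul_le_mul_left ?_ hpi
    have : 0 ≤ ((n + 1) * (1 + A) + C2 + 1 + 4 * (2 * (n + 1) + 2 * S)) * δ := by positivity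
    nlinarith
  have b2 : (9 + A) + κ * η ≤ κ * η * (L - 4) := by
    have : (9 + A) / (κ * η) ≤ L - 5 := by linarith
    rw [div_le_iff₀ (by positivity)] at this
    linarith
  rw [div_le_iff₀ (by positivity)] at h2
  have hL4 : 1 ≤ L - 4 := by linarith
  have b3 : s.card * κ * (L - 4) ≤ S * (L - 4) := by gcongr
  refine le_of_mul_le_mul_left ?_ (show 0 < κ * (L - 4) by positivity)
  have b4 := mul_le_mul_of_nonneg_left b2 hn
  have b5 : 0 ≤ S * (L - 4) := by positivity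
  nlinarith

end Pool.Agent.MP_39ed1d_co.H46
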