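import Pool.Agent.MP_39ed1d_co.H76.Wind

/-! Counting zeros from boundary data on a big arc: the core inequality.
The test function is `log (p - y)` with `p > 1`, on the unit disc minus a disc around `p`. -/

namespace Pool.Agent.MP_39ed1d_co.H46

open Pool.Agent.MP_39ed1d_co.H76 Filter Complex Metric Set Topology
open scoped ComplexConjugate

/-- the unit circle -/
noncomputable def cc (θ : ℝ) : ℂ := exp (θ * I)

theorem norm_cc (θ : ℝ) : ‖cc θ‖ = 1 := norm_exp_ofReal_mul_I θ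

theorem cc_re (θ : ℝ) : (cc θ).re = Real.cos θ := exp_ofReal_mul_I_re θ

theorem cc_im (θ : ℝ) : (cc θ).im = Real.sin θ := exp_ofReal_mul_I_im θ

theorem hasDerivAt_cc (θ : ℝ) : HasDerivAt cc (cc θ * I) θ := by
  have h : HasDerivAt (fun t : ℝ => (t : ℂ) * I) (1 * I) θ :=
    (Complex.ofRealCLM.hasDerivAt (x := θ)).mul_const I
  exact h.cexp.congr_deriv (by simp [cc])

theorem continuous_cc : Continuous cc := by unfold cc; fun_prop

theorem cc_neg (θ : ℝ) : cc (-θ) = conj (cc θ) := by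
  apply Complex.ext <;> simp [cc_re, cc_im]

theorem cc_refl (θ : ℝ) : cc (2 * Real.pi - θ) = conj (cc θ) := by
  apply Complex.ext <;> simp [cc_re, cc_im]

theorem cc_mul_conj (θ : ℝ) : cc θ * conj (cc θ) = 1 := by
  rw [mul_conj, normSq_eq_norm_sq, norm_cc]; simp

theorem cc_ne (θ : ℝ) : cc θ ≠ 0 := exp_ne_zero _

theorem hasDerivAt_im {f : ℝ → ℂ} {f' : ℂ} {x : ℝ} (h : HasDerivAt f f' x) :
    HasDerivAt (fun t => (f t).im) f'.im x :=
  Complex.imCLM.hasFDerivAt.comp_hasDerivAt x h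

theorem hasDerivAt_re {f : ℝ → ℂ} {f' : ℂ} {x : ℝ} (h : HasDerivAt f f' x) :
    HasDerivAt (fun t => (f t).re) f'.re x :=
  Complex.reCLM.hasFDerivAt.comp_hasDerivAt x h

theorem slope_le {f f' : ℝ → ℝ} {a b C : ℝ} (hab : a ≤ b)
    (hf : ∀ x ∈ Icc a b, HasDerivAt f (f' x) x) (hC : ∀ x ∈ Ioo a b, C ≤ f' x) :
    C * (b - a) ≤ f b - f a := by
  refine (convex_Icc a b).mul_sub_le_image_sub_of_le_deriv
    (fun x hx => (hf x hx).continuousAt.continuousWithinAt)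
    (fun x hx => (hf x (interior_subset hx)).differentiableAt.differentiableWithinAt)
    (fun x hx => ?_) a (left_mem_Icc.2 hab) b (right_mem_Icc.2 hab) hab
  rw [(hf x (interior_subset hx)).deriv]
  rw [interior_Icc] at hx
  exact hC x hx

theorem one_sub_mem {u : ℂ} (hu : ‖u‖ < 1) : 1 - u ∈ slitPlane := by
  rw [sub_eq_add_neg]; exact mem_slitPlane_of_norm_lt_one (by simpa using hu)

/-- continuous logarithm of one Blaschke factor on the circle -/
theorem blaschke_one {a : ℂ} (ha : ‖a‖ < 1) : ∃ T : ℝ → ℂ, Continuous T ∧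
    (∀ θ, exp (T θ) * (1 - conj a * cc θ) = cc θ - a) ∧
    ∀ θ1 θ2, θ1 ≤ θ2 → (1 - ‖a‖) / 2 * (θ2 - θ1) ≤ (T θ2).im - (T θ1).im := by
  have h1 : ∀ θ, ‖conj a * cc θ‖ < 1 := fun θ => by
    rw [norm_mul, norm_cc, norm_conj, mul_one]; exact ha
  have h2 : ∀ θ, ‖a * cc (-θ)‖ < 1 := fun θ => by
    rw [norm_mul, norm_cc, mul_one]; exact ha
  set T : ℝ → ℂ := fun θ => θ * I + log (1 - a * cc (-θ)) - log (1 - conj a * cc θ) with hT
  have hd : ∀ θ, HasDerivAt T (I + (a * cc (-θ) * I) / (1 - a * cc (-θ)) +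
      (conj a * cc θ * I) / (1 - conj a * cc θ)) θ := fun θ => by
    have d0 : HasDerivAt (fun t : ℝ => (t : ℂ) * I) (1 * I) θ :=
      (Complex.ofRealCLM.hasDerivAt (x := θ)).mul_const I
    have d1 : HasDerivAt (fun t : ℝ => cc (-t)) (-(cc (-θ) * I)) θ := by
      exact ((hasDerivAt_cc (-θ)).scomp θ (hasDerivAt_neg θ)).congr_deriv (by simp)
    have d2 := ((d1.const_mul a).const_sub 1).clog_real (one_sub_mem (h2 θ))
    have d3 := (((hasDerivAt_cc θ).const_mul (conj a)).const_sub 1).clog_real (one_sub_mem (h1 θ))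
    refine ((d0.add d2).sub d3).congr_deriv ?_
    ring
  refine ⟨T, continuous_iff_continuousAt.2 fun θ => (hd θ).continuousAt, fun θ => ?_,
    fun θ1 θ2 h12 => ?_⟩
  · have n1 := slitPlane_ne_zero (one_sub_mem (h1 θ))
    have n2 := slitPlane_ne_zero (one_sub_mem (h2 θ))
    simp only [hT]
    rw [exp_sub, exp_add, exp_log n1, exp_log n2, div_mul_cancel₀ _ n1, cc_neg]
    change cc θ * _ = _
    linear_combination (-a) * cc_mul_conj θ
  · refine slope_le h12 (fun θ _ => hasDerivAt_im (hd θ)) fun θ _ => ?_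
    set u := a * cc (-θ) with hu
    have hc : conj a * cc θ = conj u := by rw [hu, cc_neg]; simp
    have hn : ‖u‖ = ‖a‖ := by rw [hu, norm_mul, norm_cc, mul_one]
    have n2 : 1 - u ≠ 0 := slitPlane_ne_zero (one_sub_mem (h2 θ))
    have n1 : 1 - conj u ≠ 0 := by rw [← hc]; exact slitPlane_ne_zero (one_sub_mem (h1 θ))
    have e : I + u * I / (1 - u) + conj u * I / (1 - conj u) =
        ((1 - ‖u‖ ^ 2) / ‖1 - u‖ ^ 2 : ℝ) * I := by
      have e1 : ((‖u‖ ^ 2 : ℝ) : ℂ) = u * conj u := by rw [mul_conj, normSq_eq_norm_sq]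
      have e2 : ((‖1 - u‖ ^ 2 : ℝ) : ℂ) = (1 - u) * (1 - conj u) := by
        rw [← normSq_eq_norm_sq, ← mul_conj]; simp
      rw [ofReal_div, ofReal_sub, e1, e2]
      field_simp
      simp only [ofReal_one]
      ring
    rw [hc, e, mul_I_im, ofReal_re, le_div_iff₀ (by positivity), hn]
    have h3 : ‖1 - u‖ ≤ 1 + ‖a‖ := by
      rw [← hn]; simpa using norm_sub_le 1 u
    have h4 : ‖1 - u‖ ^ 2 ≤ (1 + ‖a‖) ^ 2 := by gcongr
    have h5 := norm_nonneg a
    have h6 : (1 - ‖a‖) / 2 * ‖1 - u‖ ^ 2 ≤ (1 - ‖a‖) / 2 * (1 + ‖a‖) ^ 2 := by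
      gcongr
    nlinarith [mul_nonneg (sub_nonneg.2 ha.le) (mul_nonneg (sub_nonneg.2 ha.le) h5)]

theorem blaschke (s : Multiset ℂ) (hs : ∀ a ∈ s, ‖a‖ < 1) : ∃ T : ℝ → ℂ, Continuous T ∧
    (∀ θ, exp (T θ) * (s.map fun a => 1 - conj a * cc θ).prod = (s.map fun a => cc θ - a).prod) ∧
    ∀ θ1 θ2, θ1 ≤ θ2 →
      (s.map fun a => (1 - ‖a‖) / 2).sum * (θ2 - θ1) ≤ (T θ2).im - (T θ1).im := by
  induction s using Multiset.induction_on with
  | empty => exact ⟨fun _ => 0, continuous_const, by simp, by simp⟩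
  | cons a s ih =>
    obtain ⟨T, h1, h2, h3⟩ := ih fun b hb => hs b (Multiset.mem_cons_of_mem hb)
    obtain ⟨T', h1', h2', h3'⟩ := blaschke_one (hs a (Multiset.mem_cons_self _ _))
    refine ⟨fun θ => T' θ + T θ, h1'.add h1, fun θ => ?_, fun θ1 θ2 h => ?_⟩
    · simp only [Multiset.map_cons, Multiset.prod_cons, exp_add]
      rw [← h2, ← h2']; ring
    · simp only [Multiset.map_cons, Multiset.sum_cons, add_im]
      linarith [h3 θ1 θ2 h, h3' θ1 θ2 h]

theorem normSq_sub_cc (p τ β : ℝ) :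
    ‖(p : ℂ) - τ * cc β‖ ^ 2 = p ^ 2 - 2 * p * τ * Real.cos β + τ ^ 2 := by
  rw [← normSq_eq_norm_sq, normSq_apply]
  simp only [sub_re, ofReal_re, mul_re, ofReal_im, cc_re, cc_im, sub_im, mul_im]
  linear_combination τ ^ 2 * Real.sin_sq_add_cos_sq β

/-- the inner arc -/
theorem inner_arc {Φ k : ℂ → ℂ} {p δ : ℝ} (hp : 1 < p) (hδ : 0 ≤ δ) (hδ' : δ ≤ Real.pi)
    (hΦ : ∀ y : ℂ, ‖y‖ ≤ 1 → HasDerivAt Φ (k y / (p - y)) y)
    (hk : ∀ y : ℂ, ‖y‖ ≤ 1 → 0 ≤ (k y).re) :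
    (Φ (conj (cc δ))).im ≤ (Φ (cc δ)).im := by
  set v : ℂ := p - conj (cc δ) with hv
  have hv0 : v ≠ 0 := fun h => by
    have := congrArg re h
    simp only [hv, sub_re, ofReal_re, conj_re, cc_re, zero_re] at this
    linarith [Real.cos_le_one δ]
  have hτ : 0 < ‖v‖ := norm_pos_iff.2 hv0
  have hb0 : 0 ≤ arg v := arg_nonneg_iff.2 (by
    simpa [hv, cc_im] using Real.sin_nonneg_of_nonneg_of_le_pi hδ hδ')
  have hvb : (‖v‖ : ℂ) * cc (arg v) = v := norm_mul_exp_arg_mul_I v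
  have e1 : (p : ℂ) - ‖v‖ * cc (arg v) = conj (cc δ) := by rw [hvb, hv]; ring
  have e2 : (p : ℂ) - ‖v‖ * cc (-arg v) = cc δ := by
    have := congrArg conj e1
    rw [cc_neg]; simpa using this
  have hin : ∀ β ∈ Icc (-arg v) (arg v), ‖(p : ℂ) - ‖v‖ * cc β‖ ≤ 1 := fun β hβ => by
    have h1 := normSq_sub_cc p ‖v‖ β
    have h2 := normSq_sub_cc p ‖v‖ (arg v)
    rw [e1, norm_conj, norm_cc] at h2
    have h3 : Real.cos (arg v) ≤ Real.cos β := by
      rw [← Real.cos_abs β]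
      exact Real.cos_le_cos_of_nonneg_of_le_pi (abs_nonneg _) (arg_le_pi v) (abs_le.2 hβ)
    have h4 : 2 * p * ‖v‖ * Real.cos (arg v) ≤ 2 * p * ‖v‖ * Real.cos β := by
      gcongr
    exact (pow_le_one_iff_of_nonneg (norm_nonneg _) two_ne_zero).1 (by linarith)
  have := slope_le (f := fun β => -(Φ (p - ‖v‖ * cc β)).im)
    (f' := fun β => (k (p - ‖v‖ * cc β)).re) (C := 0) (a := -arg v) (b := arg v) (by linarith)
    (fun β hβ => by
      have d1 := ((hasDerivAt_cc β).const_mul (‖v‖ : ℂ)).const_sub (p : ℂ)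
      have d2 := (hΦ _ (hin β hβ)).comp_of_eq β d1 rfl
      refine (hasDerivAt_im d2).neg.congr_deriv ?_
      have n1 : (‖v‖ : ℂ) ≠ 0 := by exact_mod_cast hτ.ne'
      have n2 := cc_ne β
      have : k (p - ‖v‖ * cc β) / (p - (p - ‖v‖ * cc β)) * -(‖v‖ * (cc β * I)) =
          -(k (p - ‖v‖ * cc β) * I) := by
        rw [sub_sub_cancel]; field_simp
      rw [this]; simp)
    (fun β hβ => hk _ (hin β (Ioo_subset_Icc_self hβ)))
  simp only [e1, e2] at this
  linarith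

/-- the kernel on the unit circle -/
theorem kernel {p θ : ℝ} (hp : 1 < p) (h0 : 0 < θ) (h1 : θ ≤ Real.pi) :
    -(1 / 2) ≤ (cc θ / (p - cc θ)).re ∧ 0 ≤ (cc θ / (p - cc θ)).im ∧
      θ * (cc θ / (p - cc θ)).im ≤ 4 := by
  have hq : normSq ((p : ℂ) - cc θ) = p ^ 2 - 2 * p * Real.cos θ + 1 := by
    have := normSq_sub_cc p 1 θ
    rw [normSq_eq_norm_sq]; simpa using this
  have hc := Real.cos_le_one θ
  have hs := Real.sin_nonneg_of_nonneg_of_le_pi h0.le h1
  have hq1 : 2 * p * (1 - Real.cos θ) ≤ p ^ 2 - 2 * p * Real.cos θ + 1 := by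
    nlinarith [sq_nonneg (p - 1)]
  have hq0 : 0 < p ^ 2 - 2 * p * Real.cos θ + 1 := by nlinarith
  have hre : (cc θ / (p - cc θ)).re = (p * Real.cos θ - 1) / (p ^ 2 - 2 * p * Real.cos θ + 1) := by
    rw [div_re, hq, ← add_div]
    congr 1
    simp only [sub_re, ofReal_re, sub_im, ofReal_im, cc_re, cc_im]
    linear_combination (-1) * Real.sin_sq_add_cos_sq θ
  have him : (cc θ / (p - cc θ)).im = p * Real.sin θ / (p ^ 2 - 2 * p * Real.cos θ + 1) := by
    rw [div_im, hq, ← sub_div]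
    congr 1
    simp only [sub_re, ofReal_re, sub_im, ofReal_im, cc_re, cc_im]
    ring
  rw [hre, him]
  refine ⟨?_, by positivity, ?_⟩
  · rw [le_div_iff₀ hq0]; nlinarith
  · rw [← mul_div_assoc, div_le_iff₀ hq0]
    have h2 := Real.cos_le_one_sub_mul_cos_sq (x := θ) (by rwa [abs_of_pos h0])
    have h3 := Real.sin_le h0.le
    have h4 : 1 / 8 ≤ 2 / Real.pi ^ 2 := by
      rw [div_le_div_iff₀ (by norm_num) (by positivity)]
      nlinarith [Real.pi_le_four, Real.pi_pos]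
    have h5 : 1 / 8 * θ ^ 2 ≤ 2 / Real.pi ^ 2 * θ ^ 2 := by gcongr
    have h6 : θ * Real.sin θ ≤ θ ^ 2 := by nlinarith
    have h7 : θ * Real.sin θ ≤ 8 * (1 - Real.cos θ) := by linarith
    nlinarith [mul_le_mul_of_nonneg_left h7 (by linarith : 0 ≤ p)]

/-- the big arc -/
theorem big_arc {Φ k : ℂ → ℂ} {p δ A B C1 : ℝ} (hp : 1 < p) (hδ : 0 < δ) (hδ' : δ ≤ Real.pi)
    (hΦ : ∀ y : ℂ, ‖y‖ ≤ 1 → HasDerivAt Φ (k y / (p - y)) y)
    (hk : ∀ y : ℂ, ‖y‖ ≤ 1 → 0 ≤ (k y).re) (hB : 0 ≤ B)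
    (h1 : ∀ θ ∈ Icc δ Real.pi, (k (cc θ)).re ≤ C1 ∧ (k (cc (2 * Real.pi - θ))).re ≤ C1 ∧
      A - B * θ ≤ (k (cc (2 * Real.pi - θ))).im - (k (cc θ)).im) :
    A * (Real.log (p + 1) - Real.log ‖p - cc δ‖) ≤ (C1 + 4 * B) * (Real.pi - δ) := by
  have hsl : ∀ θ, (p : ℂ) - cc θ ∈ slitPlane := fun θ => Or.inl (by
    simp only [sub_re, ofReal_re, cc_re]; linarith [Real.cos_le_one θ])
  have hP : ∀ θ, HasDerivAt (fun t => Φ (cc t)) (k (cc θ) / (p - cc θ) * (cc θ * I)) θ :=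
    fun θ => (hΦ _ (norm_cc θ).le).comp_of_eq θ (hasDerivAt_cc θ) rfl
  have := slope_le (a := δ) (b := Real.pi) (C := -(C1 + 4 * B))
    (f := fun θ => (Φ (cc θ)).im - (Φ (cc (2 * Real.pi - θ))).im - A * (log (p - cc θ)).re)
    (f' := fun θ => (k (cc θ) * (cc θ / (p - cc θ))).re +
      (k (cc (2 * Real.pi - θ)) * conj (cc θ / (p - cc θ))).re - A * (cc θ / (p - cc θ)).im) hδ'
    (fun θ _ => by
      have d1 := hasDerivAt_im (hP θ)
      have d2 := hasDerivAt_im ((hP (2 * Real.pi - θ)).scomp θ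
        ((hasDerivAt_id θ).const_sub (2 * Real.pi)))
      have d3 := hasDerivAt_re (((hasDerivAt_cc θ).const_sub (p : ℂ)).clog_real (hsl θ))
      refine ((d1.sub d2).sub (d3.const_mul A)).congr_deriv ?_
      have e1 : k (cc θ) / (p - cc θ) * (cc θ * I) = k (cc θ) * (cc θ / (p - cc θ)) * I := by ring
      have e2 : k (cc (2 * Real.pi - θ)) / (p - cc (2 * Real.pi - θ)) *
          (cc (2 * Real.pi - θ) * I) =
          k (cc (2 * Real.pi - θ)) * conj (cc θ / (p - cc θ)) * I := by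
        rw [map_div₀, map_sub, conj_ofReal, ← cc_refl]; ring
      have e3 : -(cc θ * I) / (p - cc θ) = -(cc θ / (p - cc θ) * I) := by ring
      rw [e1, e2, e3]
      simp only [mul_I_im, neg_smul, one_smul, neg_im, neg_re, mul_I_re]
      ring)
    (fun θ hθ => by
      obtain ⟨k1, k2, k3⟩ := kernel hp (hδ.trans hθ.1) hθ.2.le
      obtain ⟨a1, a2, a3⟩ := h1 θ (Ioo_subset_Icc_self hθ)
      have b1 := hk _ (norm_cc θ).le
      have b2 := hk _ (norm_cc (2 * Real.pi - θ)).le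
      simp only [mul_re, conj_re, conj_im]
      generalize (cc θ / (p - cc θ)).re = x at *
      generalize (cc θ / (p - cc θ)).im = z at *
      nlinarith [mul_le_mul_of_nonneg_left a3 k2, mul_le_mul_of_nonneg_left k3 hB,
        mul_le_mul_of_nonneg_left k1 b1, mul_le_mul_of_nonneg_left k1 b2])
  have h2 := inner_arc hp hδ.le hδ' hΦ hk
  have h3 : 2 * Real.pi - Real.pi = Real.pi := by ring
  have h4 : ‖(p : ℂ) - cc Real.pi‖ = p + 1 := by
    have : (p : ℂ) - cc Real.pi = ((p + 1 : ℝ) : ℂ) := by simp [cc, exp_pi_mul_I]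
    rw [this, norm_real, Real.norm_of_nonneg (by linarith)]
  simp only [h3, log_re, h4, cc_refl δ] at this
  linarith

theorem const_of_exp {d : ℝ → ℂ} {a b : ℝ} (hd : ContinuousOn d (Icc a b))
    (h : ∀ θ ∈ Icc a b, exp (d θ) = 1) {x y : ℝ} (hx : x ∈ Icc a b) (hy : y ∈ Icc a b) :
    d x = d y :=
  isCoveringMap_exp.constOn_of_comp isPreconnected_Icc hd
    (fun u hu v hv => Subtype.ext (by simp only [h u hu, h v hv])) hx hy

/-- the core inequality -/
theorem core {g : ℂ → ℂ} (hg : Differentiable ℂ g) (hg0 : ∀ y, ‖y‖ ≤ 1 → g y ≠ 0)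
    (s : Multiset ℂ) (hs : ∀ a ∈ s, ‖a‖ < 1) {M p δ m C C1 : ℝ} (hp : 1 < p) (hδ : 0 < δ)
    (hδ' : δ ≤ Real.pi) (hm : 0 ≤ m)
    (hM : ∀ y, ‖y‖ = 1 → ‖(s.map fun a => y - a).prod * g y‖ ≤ Real.exp M)
    {Λ : ℝ → ℂ} (hΛ : ContinuousOn Λ (Icc δ (2 * Real.pi - δ)))
    (hΛe : ∀ θ ∈ Icc δ (2 * Real.pi - δ), exp (Λ θ) = (s.map fun a => cc θ - a).prod * g (cc θ))
    (hre : ∀ θ ∈ Icc δ (2 * Real.pi - δ), M - C1 ≤ (Λ θ).re)
    (him : ∀ θ ∈ Icc δ Real.pi, (Λ (2 * Real.pi - θ)).im - (Λ θ).im ≤ 2 * m * θ + C) :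
    (2 * Real.pi * (s.map fun a => (1 - ‖a‖) / 2).sum - C) *
      (Real.log (p + 1) - Real.log ‖p - cc δ‖) ≤
      (C1 + 4 * (2 * m + 2 * (s.map fun a => (1 - ‖a‖) / 2).sum)) * (Real.pi - δ) := by
  set S := (s.map fun a => (1 - ‖a‖) / 2).sum with hS
  have hS0 : 0 ≤ S := Multiset.sum_nonneg fun x hx => by
    obtain ⟨a, ha, rfl⟩ := Multiset.mem_map.1 hx
    linarith [hs a ha]
  obtain ⟨T, hT, hTe, hTm⟩ := blaschke s hs
  set H : ℂ → ℂ := fun y => (s.map fun a => 1 - conj a * y).prod * g y with hH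
  have hHd : Differentiable ℂ H := by
    refine Differentiable.mul ?_ hg
    clear hM hΛe hS hTe hTm hS0 hs hH H S
    induction s using Multiset.induction_on with
    | empty => simp
    | cons a s ih =>
      simp only [Multiset.map_cons, Multiset.prod_cons]
      exact Differentiable.mul (by fun_prop) ih
  have hH0 : ∀ y, ‖y‖ ≤ 1 → H y ≠ 0 := fun y hy => by
    refine mul_ne_zero (Multiset.prod_ne_zero fun h0 => ?_) (hg0 y hy)
    obtain ⟨a, ha, h1⟩ := Multiset.mem_map.1 h0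
    refine slitPlane_ne_zero (one_sub_mem ?_) h1
    rw [norm_mul, norm_conj]
    nlinarith [hs a ha, norm_nonneg a, norm_nonneg y]
  have hHn : ∀ y, ‖y‖ = 1 → ‖H y‖ = ‖(s.map fun a => y - a).prod * g y‖ := fun y hy => by
    simp only [hH, norm_mul]
    congr 1
    clear hM hΛe hS hTe hTm hS0 hs hH hH0 hHd H S
    induction s using Multiset.induction_on with
    | empty => simp
    | cons a s ih =>
      simp only [Multiset.map_cons, Multiset.prod_cons, norm_mul, ih]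
      congr 1
      have : 1 - conj a * y = y * conj (y - a) := by
        rw [map_sub, mul_sub, mul_conj, normSq_eq_norm_sq, hy]; simp [mul_comm]
      rw [this, norm_mul, hy, one_mul, norm_conj]
  have hHM : ∀ y, ‖y‖ ≤ 1 → ‖H y‖ ≤ Real.exp M := fun y hy =>
    norm_le_of_forall_mem_frontier_norm_le (U := ball (0 : ℂ) 1) isBounded_ball
      hHd.diffContOnCl (fun z hz => by
        rw [frontier_ball _ one_ne_zero] at hz
        have hz : ‖z‖ = 1 := by simpa using hz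
        rw [hHn z hz]; exact hM z hz)
      (by rw [closure_ball _ one_ne_zero]; simpa using hy)
  obtain ⟨ε, hε, hsub⟩ := (isCompact_closedBall (0 : ℂ) 1).exists_thickening_subset_open
    (t := {y | H y ≠ 0}) (isOpen_ne_fun hHd.continuous continuous_const)
    (fun y hy => hH0 y (by simpa using hy))
  rw [thickening_closedBall hε zero_le_one] at hsub
  set R := min (ε + 1) p with hR
  have hR1 : 1 < R := lt_min (by linarith) hp
  have hmem : ∀ y : ℂ, ‖y‖ ≤ 1 → y ∈ ball (0 : ℂ) R := fun y hy => by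
    rw [mem_ball_zero_iff]; linarith
  obtain ⟨h, hh, -, hhe⟩ := exists_log (f := H) (c := 0) (r := R) (by linarith)
    hHd.differentiableOn fun z hz => hsub (ball_subset_ball (min_le_left _ _) hz)
  set k : ℂ → ℂ := fun y => M - (log (H 0) + h y) with hk
  have hke : ∀ y : ℂ, ‖y‖ ≤ 1 → exp (M - k y) = H y := fun y hy => by
    simp only [hk, sub_sub_cancel]
    rw [exp_add, exp_log (hH0 0 (by simp)), ← hhe y (hmem y hy)]
  have hkd : DifferentiableOn ℂ k (ball 0 R) :=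
    (differentiableOn_const _).sub ((differentiableOn_const _).add hh)
  obtain ⟨Φ, hΦ⟩ := (hkd.div (d := fun y => (p : ℂ) - y) (by fun_prop) fun y hy h0 => by
    have h1 : ‖y‖ < p := (mem_ball_zero_iff.1 hy).trans_le (min_le_right _ _)
    rw [← sub_eq_zero.1 h0, norm_real, Real.norm_of_nonneg (by linarith)] at h1
    exact lt_irrefl _ h1).isExactOn_ball
  have hk0 : ∀ y : ℂ, ‖y‖ ≤ 1 → 0 ≤ (k y).re := fun y hy => by
    have := hHM y hy
    rw [← hke y hy, norm_exp, Real.exp_le_exp, sub_re, ofReal_re] at this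
    linarith
  have hkc : Continuous fun θ => k (cc θ) :=
    hkd.continuousOn.comp_continuous continuous_cc fun θ => hmem _ (norm_cc θ).le
  have hone : ∀ θ ∈ Icc δ (2 * Real.pi - δ), exp (Λ θ - (T θ + (M - k (cc θ)))) = 1 :=
    fun θ hθ => by
    rw [exp_sub, div_eq_one_iff_eq (exp_ne_zero _), exp_add, hke _ (norm_cc θ).le, hΛe θ hθ,
      ← hTe θ, mul_assoc]
  have hkre : ∀ θ ∈ Icc δ (2 * Real.pi - δ), (k (cc θ)).re ≤ C1 := fun θ hθ => by
    have h1 := hHn _ (norm_cc θ)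
    rw [← hke _ (norm_cc θ).le, ← hΛe θ hθ, norm_exp, norm_exp, Real.exp_eq_exp, sub_re,
      ofReal_re] at h1
    linarith [hre θ hθ]
  refine big_arc (Φ := Φ) (k := k) hp hδ hδ' (fun y hy => hΦ y (hmem y hy)) hk0 (by positivity)
    fun θ hθ => ?_
  have m1 : θ ∈ Icc δ (2 * Real.pi - δ) := ⟨hθ.1, by linarith [hθ.2]⟩
  have m2 : 2 * Real.pi - θ ∈ Icc δ (2 * Real.pi - δ) := ⟨by linarith [hθ.2], by linarith [hθ.1]⟩
  refine ⟨hkre _ m1, hkre _ m2, ?_⟩
  have h2 := congrArg im (const_of_exp (d := fun θ => Λ θ - (T θ + (M - k (cc θ))))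
    (hΛ.sub (hT.add (continuous_const.sub hkc)).continuousOn) hone m1 m2)
  simp only [sub_im, add_im, ofReal_im] at h2
  have h3 := hTm θ (2 * Real.pi - θ) (by linarith [hθ.2])
  linarith [him θ hθ]

end Pool.Agent.MP_39ed1d_co.H46
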